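import Mathlib

/-!
# V LiouB: the averages of `‖s‖ ^ p` over large circles are unbounded

`s` is a non-constant entire function, `p > 0`.  By Jensen's formula for `s - s z₁` the average of `log ‖s - s z₁‖` over the circle of radius `t` is at
least `log (t / ‖z₁‖) + log ‖s 0 - s z₁‖`, and `log x ≤ x ^ p / p`.
-/

set_option autoImplicit false

open Topology Filter Metric

namespace Pool.Agent.H15.V

theorem log_le_rpow {p x : ℝ} (hp : 0 < p) (hx : 0 ≤ x) : Real.log x ≤ x ^ p / p := by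
  rw [le_div_iff₀ hp]
  rcases hx.eq_or_lt with h | h
  · rw [← h, Real.log_zero, zero_mul]
    exact Real.rpow_nonneg le_rfl _
  · have h1 : Real.log x * p = Real.log (x ^ p) := by rw [Real.log_rpow h, mul_comm]
    rw [h1]
    have h2 := Real.log_le_sub_one_of_pos (Real.rpow_pos_of_pos h p)
    linarith

theorem add_rpow_le_two {p x y : ℝ} (hp : 0 < p) (hx : 0 ≤ x) (hy : 0 ≤ y) : (x + y) ^ p ≤ 2 ^ p * (x ^ p + y ^ p) := by
  have h1 : (x + y) ^ p ≤ (2 * max x y) ^ p := by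
    refine Real.rpow_le_rpow (by positivity) ?_ hp.le
    have := le_max_left x y
    have := le_max_right x y
    linarith
  refine h1.trans ?_
  rw [Real.mul_rpow (by norm_num) (le_max_of_le_left hx)]
  refine mul_le_mul_of_nonneg_left ?_ (by positivity)
  rcases max_choice x y with h | h
  · rw [h]
    have := Real.rpow_nonneg hy p
    linarith
  · rw [h]
    have := Real.rpow_nonneg hx p
    linarith

theorem jensen_low {s : ℂ → ℂ} (hs : Differentiable ℂ s) {z₁ : ℂ} (h1 : s z₁ ≠ s 0) {t : ℝ} (ht : ‖z₁‖ ≤ t) (ht0 : 0 < t) :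
    Real.log (t * ‖z₁‖⁻¹) + Real.log ‖s 0 - s z₁‖ ≤ Real.circleAverage (fun z => Real.log ‖s z - s z₁‖) 0 t := by
  have htt : |t| = t := abs_of_pos ht0
  have hz1 : z₁ ≠ 0 := fun h => h1 (by rw [h])
  have han : AnalyticOnNhd ℂ (fun z => s z - s z₁) (closedBall 0 |t|) := fun z _ =>
    (hs.analyticAt z).sub analyticAt_const
  have h0 : (fun z => s z - s z₁) 0 ≠ 0 := sub_ne_zero.2 (fun h => h1 h.symm)
  rw [han.circleAverage_log_norm ht0.ne' h0]
  refine add_le_add_left ?_ _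
  have hmem : z₁ ∈ closedBall (0 : ℂ) |t| := by
    rw [mem_closedBall_zero_iff, htt]
    exact ht
  have hlogn : 0 ≤ Real.log (t * ‖z₁‖⁻¹) := by
    apply Real.log_nonneg
    rw [← div_eq_mul_inv, le_div_iff₀ (norm_pos_iff.2 hz1), one_mul]
    exact ht
  have hnn : ∀ u, 0 ≤ (MeromorphicOn.divisor (fun z => s z - s z₁) (closedBall 0 |t|) u : ℝ) * Real.log (t * ‖0 - u‖⁻¹) := by
    intro u
    by_cases hu : u ∈ closedBall (0 : ℂ) |t|
    · have h4 : (0 : ℤ) ≤ MeromorphicOn.divisor (fun z => s z - s z₁) (closedBall 0 |t|) u :=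
        (MeromorphicOn.AnalyticOnNhd.divisor_nonneg han) u
      have h5 : (0 : ℝ) ≤ MeromorphicOn.divisor (fun z => s z - s z₁) (closedBall 0 |t|) u := by exact_mod_cast h4
      refine mul_nonneg h5 ?_
      by_cases hu0 : u = 0
      · simp [hu0]
      · apply Real.log_nonneg
        have h6 : 0 < ‖0 - u‖ := by simpa using hu0
        rw [← div_eq_mul_inv, le_div_iff₀ h6, one_mul]
        rw [mem_closedBall, dist_zero_right, htt] at hu
        simpa using hu
    · have : MeromorphicOn.divisor (fun z => s z - s z₁) (closedBall 0 |t|) u = 0 :=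
        Function.locallyFinsuppWithin.apply_eq_zero_of_notMem _ hu
      rw [this]
      simp
  have hfin : (Function.support fun u => (MeromorphicOn.divisor (fun z => s z - s z₁) (closedBall 0 |t|) u : ℝ) *
      Real.log (t * ‖0 - u‖⁻¹)).Finite := by
    refine ((MeromorphicOn.divisor (fun z => s z - s z₁) (closedBall 0 |t|)).finiteSupport (isCompact_closedBall 0 |t|)).subset ?_
    intro u hu
    simp only [Function.mem_support] at hu ⊢
    intro h
    apply hu
    rw [h]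
    simp
  have hone : (1 : ℝ) ≤ (MeromorphicOn.divisor (fun z => s z - s z₁) (closedBall 0 |t|) z₁ : ℝ) := by
    have hnt : analyticOrderAt (fun z => s z - s z₁) z₁ ≠ ⊤ := by
      intro h'
      rw [analyticOrderAt_eq_top] at h'
      have hall : ∀ z, s z - s z₁ = 0 := by
        have h2 : AnalyticOnNhd ℂ (fun z => s z - s z₁) Set.univ := fun z _ => (hs.analyticAt z).sub analyticAt_const
        intro z
        have := h2.eqOn_zero_of_preconnected_of_eventuallyEq_zero isPreconnected_univ (Set.mem_univ z₁) h'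
        exact this (Set.mem_univ z)
      exact h0 (hall 0)
    obtain ⟨n, hn⟩ := ENat.ne_top_iff_exists.1 hnt
    have hn0 : n ≠ 0 := by
      rintro rfl
      have h' : analyticOrderAt (fun z => s z - s z₁) z₁ = 0 := by rw [← hn]; rfl
      rw [(han z₁ hmem).analyticOrderAt_eq_zero] at h'
      exact h' (sub_self _)
    have e : MeromorphicOn.divisor (fun z => s z - s z₁) (closedBall 0 |t|) z₁ = (n : ℤ) := by
      rw [MeromorphicOn.AnalyticOnNhd.divisor_apply han hmem, ← hn]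
      rfl
    rw [e]
    have : 1 ≤ n := Nat.one_le_iff_ne_zero.2 hn0
    exact_mod_cast this
  have hs1 := single_le_finsum z₁ hfin hnn
  refine le_trans ?_ hs1
  have e0 : ‖(0 : ℂ) - z₁‖ = ‖z₁‖ := by simp
  rw [e0]
  exact le_mul_of_one_le_left hlogn hone

theorem growth {s : ℂ → ℂ} (hs : Differentiable ℂ s) (hne : ∃ z, s z ≠ s 0) {p : ℝ} (hp : 0 < p) (B : ℝ) :
    ∃ t₁ : ℝ, 0 < t₁ ∧ ∀ t, t₁ ≤ t → B ≤ Real.circleAverage (fun z => ‖s z‖ ^ p) 0 t := by
  obtain ⟨z₁, h1⟩ := hne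
  have hz1 : z₁ ≠ 0 := fun h => h1 (by rw [h])
  have hn1 : 0 < ‖z₁‖ := norm_pos_iff.2 hz1
  obtain ⟨q, hq⟩ : ∃ q : ℝ, q = 2 ^ p / p := ⟨_, rfl⟩
  have hq0 : 0 < q := by rw [hq]; positivity
  obtain ⟨K, hK⟩ : ∃ K : ℝ, K = q * (B + ‖s z₁‖ ^ p) - Real.log ‖s 0 - s z₁‖ := ⟨_, rfl⟩
  refine ⟨max ‖z₁‖ (‖z₁‖ * Real.exp K), lt_max_of_lt_left hn1, fun t ht => ?_⟩
  have ht1 : ‖z₁‖ ≤ t := (le_max_left _ _).trans ht
  have ht2 : ‖z₁‖ * Real.exp K ≤ t := (le_max_right _ _).trans ht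
  have ht0 : 0 < t := hn1.trans_le ht1
  have hJ := jensen_low hs h1 ht1 ht0
  have hlog : K ≤ Real.log (t * ‖z₁‖⁻¹) := by
    rw [Real.le_log_iff_exp_le (by positivity), ← div_eq_mul_inv, le_div_iff₀ hn1, mul_comm]
    exact ht2
  have hcs : Continuous fun z => ‖s z‖ ^ p := (hs.continuous.norm).rpow_const fun z => Or.inr hp.le
  have hint : CircleIntegrable (fun z => Real.log ‖s z - s z₁‖) 0 t := by
    have han : AnalyticOnNhd ℂ (fun z => s z - s z₁) (sphere 0 |t|) := fun z _ => (hs.analyticAt z).sub analyticAt_const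
    exact han.meromorphicOn.circleIntegrable_log_norm
  have hint2 : CircleIntegrable (fun z => q * (‖s z‖ ^ p + ‖s z₁‖ ^ p)) 0 t :=
    (continuous_const.mul (hcs.add continuous_const)).continuousOn.circleIntegrable'
  have hmono : Real.circleAverage (fun z => Real.log ‖s z - s z₁‖) 0 t ≤ Real.circleAverage (fun z => q * (‖s z‖ ^ p + ‖s z₁‖ ^ p)) 0 t := by
    refine Real.circleAverage_mono hint hint2 fun z _ => ?_
    have h2 := log_le_rpow hp (norm_nonneg (s z - s z₁))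
    have h3 : ‖s z - s z₁‖ ^ p ≤ 2 ^ p * (‖s z‖ ^ p + ‖s z₁‖ ^ p) :=
      (Real.rpow_le_rpow (norm_nonneg _) (norm_sub_le _ _) hp.le).trans (add_rpow_le_two hp (norm_nonneg _) (norm_nonneg _))
    calc Real.log ‖s z - s z₁‖ ≤ ‖s z - s z₁‖ ^ p / p := h2
      _ ≤ (2 ^ p * (‖s z‖ ^ p + ‖s z₁‖ ^ p)) / p := div_le_div_of_nonneg_right h3 hp.le
      _ = q * (‖s z‖ ^ p + ‖s z₁‖ ^ p) := by rw [hq]; ring
  have hval : Real.circleAverage (fun z => q * (‖s z‖ ^ p + ‖s z₁‖ ^ p)) 0 t = q * (Real.circleAverage (fun z => ‖s z‖ ^ p) 0 t + ‖s z₁‖ ^ p) := by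
    have e1 : (fun z => q * (‖s z‖ ^ p + ‖s z₁‖ ^ p)) = fun z => q • (‖s z‖ ^ p + ‖s z₁‖ ^ p) := rfl
    rw [e1, Real.circleAverage_fun_smul, Real.circleAverage_fun_add hcs.continuousOn.circleIntegrable' (circleIntegrable_const _ _ _),
      Real.circleAverage_const, smul_eq_mul]
  rw [hval] at hmono
  have h4 : q * (B + ‖s z₁‖ ^ p) ≤ q * (Real.circleAverage (fun z => ‖s z‖ ^ p) 0 t + ‖s z₁‖ ^ p) := by
    have : K + Real.log ‖s 0 - s z₁‖ = q * (B + ‖s z₁‖ ^ p) := by rw [hK]; ring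
    linarith
  have h5 := le_of_mul_le_mul_left h4 hq0
  linarith

end Pool.Agent.H15.V
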