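import Pool.Agent.H15.V.LiouA
import Pool.Agent.H15.V.LiouB
import Pool.Agent.H36.BP.SubB
import Pool.Agent.H36.BP.SubC
import Pool.Agent.H36.BP.MaxP
import Pool.Agent.H36.BP.CirA
import Pool.Agent.H36.BP.WdA
import Mathlib.Analysis.Complex.MeanValue

/-!
# V Liou: differentials of bounded weight are constant along entire curves of order two

`F` is an entire curve (without zeros) with `mean log ‖F‖ ≤ A (1 + r²)` over the circles of radius `r`, and `s` is an entire function with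
`‖s‖ ≤ C fs (F, F') ^ m`.  Then `s` is constant.

If not, then the averages of `‖s‖ ^ (2/m)` over large circles are large (`growth`), so the averages of `fs²` over finitely many rotations
are large on `t₁ ≤ ‖z‖ ≤ r` (`riemann`); the product of the functions `‖F (rot z)‖ ^ (1/N)` is compared with the radial function
`β z = b (‖z‖² - t₁² - 2 t₁² log (‖z‖ / t₁))` (`barrier`).
-/

set_option autoImplicit false

open Topology Filter Metric

namespace Pool.Agent.H15.V

open Pool.Agent.H36.BP (EN fs wd Sub)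

variable {N : ℕ}

theorem Sub_prod {ι : Type} (S : Finset ι) {u : ι → ℂ → ℝ} {z₀ : ℂ} {c : ι → ℝ} (h : ∀ j ∈ S, Sub (u j) z₀ (c j)) :
    Sub (fun z => ∏ j ∈ S, u j z) z₀ (∑ j ∈ S, c j) := by
  classical
  induction S using Finset.induction_on with
  | empty =>
    refine (Pool.Agent.H36.BP.Sub.const one_pos z₀).congr (Filter.Eventually.of_forall fun z => ?_)
    simp
  | insert a S ha ih =>
    rw [Finset.sum_insert ha]
    refine ((h a (Finset.mem_insert_self _ _)).mul (ih fun j hj => h j (Finset.mem_insert_of_mem hj))).congr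
      (Filter.Eventually.of_forall fun z => ?_)
    rw [Finset.prod_insert ha]

/-- the radial barrier -/
noncomputable def bar (b t₁ x : ℝ) : ℝ := b * (x ^ 2 - t₁ ^ 2 - 2 * t₁ ^ 2 * Real.log (x / t₁))

theorem bar_nonneg {b t₁ x : ℝ} (hb : 0 ≤ b) (ht : 0 < t₁) (hx : 0 < x) : 0 ≤ bar b t₁ x := by
  refine mul_nonneg hb ?_
  have h1 : 2 * Real.log (x / t₁) = Real.log ((x / t₁) ^ 2) := by
    rw [Real.log_pow]
    norm_num
  have h2 := Real.log_le_sub_one_of_pos (show 0 < (x / t₁) ^ 2 by positivity)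
  have h3 : t₁ ^ 2 * (2 * Real.log (x / t₁)) ≤ t₁ ^ 2 * ((x / t₁) ^ 2 - 1) := by
    rw [h1]
    exact mul_le_mul_of_nonneg_left h2 (by positivity)
  have h4 : t₁ ^ 2 * ((x / t₁) ^ 2 - 1) = x ^ 2 - t₁ ^ 2 := by field_simp
  linarith

theorem bar_self {b t₁ : ℝ} (ht : 0 < t₁) : bar b t₁ t₁ = 0 := by
  rw [bar, div_self ht.ne', Real.log_one]
  ring

theorem Sub_bar {b t₁ : ℝ} (hb : 0 ≤ b) (ht : 0 < t₁) {z₀ : ℂ} (hz : t₁ ≤ ‖z₀‖) :
    Sub (fun z => Real.exp (-bar b t₁ (max ‖z‖ t₁))) z₀ (-b) := by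
  have hz0 : z₀ ≠ 0 := fun h => by rw [h, norm_zero] at hz; linarith
  have h1 : Sub (fun z : ℂ => Real.exp (-b * ‖z‖ ^ 2)) z₀ (-b) := by
    have h := Pool.Agent.H36.BP.Sub.exp_sq (t := fun z : ℂ => z) (z₀ := z₀) analyticAt_id (-b)
    simpa using h
  have h2 : Sub (fun z : ℂ => ‖z‖ ^ (2 * b * t₁ ^ 2)) z₀ 0 := by
    have h := (Pool.Agent.H36.BP.Sub.of_holo (h := fun z : ℂ => z) (z₀ := z₀) analyticAt_id hz0).rpow (r := 2 * b * t₁ ^ 2) (by positivity)
    simpa using h
  have h3 := (h1.mul h2).const_mul (a := Real.exp (b * t₁ ^ 2 - 2 * b * t₁ ^ 2 * Real.log t₁)) (Real.exp_pos _)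
  rw [add_zero] at h3
  have hq : ∀ z : ℂ, z ≠ 0 → Real.exp (b * t₁ ^ 2 - 2 * b * t₁ ^ 2 * Real.log t₁) * (Real.exp (-b * ‖z‖ ^ 2) * ‖z‖ ^ (2 * b * t₁ ^ 2)) =
      Real.exp (-bar b t₁ ‖z‖) := by
    intro z hz
    have hzn := norm_pos_iff.2 hz
    rw [Real.rpow_def_of_pos hzn, ← Real.exp_add, ← Real.exp_add, bar, Real.log_div hzn.ne' ht.ne']
    congr 1
    ring
  have hne : ∀ᶠ z in 𝓝 z₀, z ≠ 0 := isOpen_ne.mem_nhds hz0
  refine h3.mono ?_ ?_
  · show Real.exp _ * _ = _
    rw [hq z₀ hz0, max_eq_left hz]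
  · filter_upwards [hne] with z hz'
    show Real.exp _ * _ ≤ _
    rw [hq z hz', Real.exp_le_exp, neg_le_neg_iff]
    rcases le_total t₁ ‖z‖ with h | h
    · rw [max_eq_left h]
    · rw [max_eq_right h, bar_self ht]
      exact bar_nonneg hb ht (norm_pos_iff.2 hz')

theorem barrier {F : ℂ → EN N} (hF : Differentiable ℂ F) (h0 : ∀ z, F z ≠ 0) {n : ℕ} (hn : 1 ≤ n) {b t₁ r : ℝ} (hb : 0 < b) (ht : 0 < t₁)
    (htr : t₁ < r) (hlow : ∀ z : ℂ, t₁ ≤ ‖z‖ → ‖z‖ ≤ r →
      b ≤ (n : ℝ)⁻¹ * ∑ j ∈ Finset.range n, fs (F (rot n j * z)) (deriv F (rot n j * z)) ^ 2 / 2) :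
    bar b t₁ r ≤ Real.circleAverage (fun z => Real.log ‖F z‖) 0 r - Real.log ‖F 0‖ + 2 := by
  have hr : 0 < r := ht.trans htr
  have hn0 : (0 : ℝ) < n := by exact_mod_cast hn
  obtain ⟨W, hW⟩ : ∃ W : ℂ → ℝ, ∀ z, W z = ∏ j ∈ Finset.range n, ‖F (rot n j * z)‖ ^ ((n : ℝ)⁻¹) := ⟨_, fun _ => rfl⟩
  have hWpos : ∀ z, 0 < W z := fun z => by
    rw [hW]
    exact Finset.prod_pos fun j _ => Real.rpow_pos_of_pos (norm_pos_iff.2 (h0 _)) _
  have hlogW : ∀ z, Real.log (W z) = (n : ℝ)⁻¹ * ∑ j ∈ Finset.range n, Real.log ‖F (rot n j * z)‖ := by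
    intro z
    rw [hW, Real.log_prod (fun j _ => (Real.rpow_pos_of_pos (norm_pos_iff.2 (h0 _)) _).ne'), Finset.mul_sum]
    exact Finset.sum_congr rfl fun j _ => Real.log_rpow (norm_pos_iff.2 (h0 _)) _
  have hcF : ∀ j, Continuous fun z => ‖F (rot n j * z)‖ := fun j =>
    (hF.continuous.comp (continuous_const.mul continuous_id)).norm
  have hWc : Continuous W := by
    have : W = fun z => ∏ j ∈ Finset.range n, ‖F (rot n j * z)‖ ^ ((n : ℝ)⁻¹) := funext hW
    rw [this]
    exact continuous_finsetProd _ fun j _ => (hcF j).rpow_const fun z => Or.inr (inv_pos.2 hn0).le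
  have hlogFc : Continuous fun z => Real.log ‖F z‖ := hF.continuous.norm.log fun z => norm_ne_zero_iff.2 (h0 z)
  have hlogWc : Continuous fun z => Real.log (W z) := hWc.log fun z => (hWpos z).ne'
  have hWsub : ∀ z₀, Sub W z₀ ((n : ℝ)⁻¹ * ∑ j ∈ Finset.range n, fs (F (rot n j * z₀)) (deriv F (rot n j * z₀)) ^ 2 / 2) := by
    intro z₀
    have hj : ∀ j ∈ Finset.range n, Sub (fun z => ‖F (rot n j * z)‖ ^ ((n : ℝ)⁻¹)) z₀
        ((n : ℝ)⁻¹ * fs (F (rot n j * z₀)) (deriv F (rot n j * z₀)) ^ 2 / 2) := by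
      intro j _
      have hd : HasDerivAt (fun z => F (rot n j * z)) (rot n j • deriv F (rot n j * z₀)) z₀ := by
        have h1 : HasDerivAt (fun z : ℂ => rot n j * z) (rot n j) z₀ := by simpa using (hasDerivAt_id z₀).const_mul (rot n j)
        exact HasDerivAt.scomp z₀ (hF (rot n j * z₀)).hasDerivAt h1
      have han : AnalyticAt ℂ (fun z => F (rot n j * z)) z₀ :=
        (hF.comp ((differentiable_const _).mul differentiable_id)).analyticAt z₀
      have h2 := Pool.Agent.H36.BP.Sub.norm_rpow han (h0 _) ((n : ℝ)⁻¹)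
      rw [hd.deriv, Pool.Agent.H36.BP.fs_smul_right, norm_rot, one_mul] at h2
      exact h2
    have h3 := Sub_prod (Finset.range n) hj
    have e : ∑ j ∈ Finset.range n, ((n : ℝ)⁻¹ * fs (F (rot n j * z₀)) (deriv F (rot n j * z₀)) ^ 2 / 2) =
        (n : ℝ)⁻¹ * ∑ j ∈ Finset.range n, fs (F (rot n j * z₀)) (deriv F (rot n j * z₀)) ^ 2 / 2 := by
      rw [Finset.mul_sum]
      exact Finset.sum_congr rfl fun j _ => by ring
    rw [e] at h3
    exact h3.congr (Filter.Eventually.of_forall fun z => (hW z).symm)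
  obtain ⟨g, hg, hgW⟩ := Pool.Agent.H36.BP.circle_approx hr (fun z => Real.log (W z)) hlogWc.continuousOn one_pos
  have hMc : Continuous fun z : ℂ => max ‖z‖ t₁ := continuous_norm.max continuous_const
  have hM0 : ∀ z : ℂ, 0 < max ‖z‖ t₁ := fun z => lt_max_of_lt_right ht
  have hbc : Continuous fun z : ℂ => bar b t₁ (max ‖z‖ t₁) := by
    unfold bar
    refine continuous_const.mul (((hMc.pow 2).sub continuous_const).sub (continuous_const.mul ?_))
    exact (hMc.div_const t₁).log fun z => (div_pos (hM0 z) ht).ne'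
  have key : ∀ ε : ℝ, 0 < ε → Real.log (W 0) - (g 0).re ≤ 1 - bar b t₁ r + ε * r ^ 2 := by
    intro ε hε
    obtain ⟨w, hw⟩ : ∃ w : ℂ → ℝ, ∀ z, w z = W z * ‖Complex.exp (-g z)‖ * Real.exp (-bar b t₁ (max ‖z‖ t₁)) * Real.exp (ε * ‖z‖ ^ 2) :=
      ⟨_, fun _ => rfl⟩
    have hwc : Continuous w := by
      have : w = fun z => W z * ‖Complex.exp (-g z)‖ * Real.exp (-bar b t₁ (max ‖z‖ t₁)) * Real.exp (ε * ‖z‖ ^ 2) := funext hw
      rw [this]
      have h1 : Continuous fun z => ‖Complex.exp (-g z)‖ := (Complex.continuous_exp.comp hg.continuous.neg).norm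
      exact ((hWc.mul h1).mul (Real.continuous_exp.comp hbc.neg)).mul
        (Real.continuous_exp.comp (continuous_const.mul (continuous_norm.pow 2)))
    have hsub : ∀ z ∈ ball (0 : ℂ) r, 0 < w z → ∃ c, 0 < c ∧ Sub w z c := by
      intro z₀ hz₀ _
      rw [mem_ball_zero_iff] at hz₀
      have hS1 := hWsub z₀
      have hS2 : Sub (fun z => ‖Complex.exp (-g z)‖) z₀ 0 :=
        Pool.Agent.H36.BP.Sub.of_holo ((hg.analyticAt z₀).neg.cexp) (Complex.exp_ne_zero _)
      have hS4 : Sub (fun z : ℂ => Real.exp (ε * ‖z‖ ^ 2)) z₀ ε := by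
        have h := Pool.Agent.H36.BP.Sub.exp_sq (t := fun z : ℂ => z) (z₀ := z₀) analyticAt_id ε
        simpa using h
      rcases lt_or_ge ‖z₀‖ t₁ with hlt | hge
      · have hS3 : Sub (fun z => Real.exp (-bar b t₁ (max ‖z‖ t₁))) z₀ 0 := by
          refine (Pool.Agent.H36.BP.Sub.const one_pos z₀).congr ?_
          have hev : ∀ᶠ z in 𝓝 z₀, ‖z‖ < t₁ := (isOpen_lt continuous_norm continuous_const).mem_nhds hlt
          filter_upwards [hev] with z hz
          rw [max_eq_right hz.le, bar_self ht, neg_zero, Real.exp_zero]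
        have hS := ((hS1.mul hS2).mul hS3).mul hS4
        refine ⟨_, ?_, hS.congr (Filter.Eventually.of_forall fun z => (hw z).symm)⟩
        have hnn : 0 ≤ (n : ℝ)⁻¹ * ∑ j ∈ Finset.range n, fs (F (rot n j * z₀)) (deriv F (rot n j * z₀)) ^ 2 / 2 :=
          mul_nonneg (inv_pos.2 hn0).le (Finset.sum_nonneg fun j _ => by positivity)
        linarith
      · have hS3 := Sub_bar hb.le ht hge
        have hS := ((hS1.mul hS2).mul hS3).mul hS4
        refine ⟨_, ?_, hS.congr (Filter.Eventually.of_forall fun z => (hw z).symm)⟩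
        have := hlow z₀ hge hz₀.le
        linarith
    have hmax := Pool.Agent.H36.BP.max_principle (isCompact_closedBall (0 : ℂ) r) isOpen_ball ball_subset_closedBall
      hwc.continuousOn.upperSemicontinuousOn hsub (A := Real.exp (1 - bar b t₁ r + ε * r ^ 2)) (Real.exp_pos _).le (by
        rintro z ⟨hz1, hz2⟩
        have hzr : ‖z‖ = r := by
          rw [mem_closedBall_zero_iff] at hz1
          rw [mem_ball_zero_iff, not_lt] at hz2
          exact le_antisymm hz1 hz2
        have h1 := hgW z (by rw [mem_sphere_zero_iff_norm]; exact hzr)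
        rw [hw, ← Real.exp_log (hWpos z), Complex.norm_exp, ← Real.exp_add, ← Real.exp_add, ← Real.exp_add, hzr,
          max_eq_left htr.le, Real.exp_le_exp]
        have h2 := (abs_le.1 h1).1
        simp only [Complex.neg_re]
        linarith)
    have h1 := hmax 0 (mem_closedBall_self hr.le)
    rw [hw, ← Real.exp_log (hWpos 0), Complex.norm_exp, ← Real.exp_add, ← Real.exp_add, ← Real.exp_add, norm_zero,
      max_eq_right ht.le, bar_self ht, Real.exp_le_exp] at h1
    simp only [Complex.neg_re] at h1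
    linarith
  have key2 : Real.log (W 0) - (g 0).re ≤ 1 - bar b t₁ r := by
    refine le_of_forall_pos_le_add fun δ hδ => ?_
    have h1 := key (δ / r ^ 2) (by positivity)
    rwa [div_mul_cancel₀ _ (by positivity)] at h1
  have hW0 : Real.log (W 0) = Real.log ‖F 0‖ := by
    rw [hlogW]
    simp only [mul_zero, Finset.sum_const, Finset.card_range, nsmul_eq_mul]
    field_simp
  have hgre : (g 0).re = Real.circleAverage (fun z => (g z).re) 0 r := by
    have hgd : DiffContOnCl ℂ g (ball 0 |r|) := hg.diffContOnCl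
    have h1 := hgd.circleAverage
    have h2 := ContinuousLinearMap.circleAverage_comp_comm Complex.reCLM (f := g) (c := (0 : ℂ)) (R := r)
      (hg.continuous.continuousOn.circleIntegrable')
    rw [h1] at h2
    exact h2.symm
  have hav : Real.circleAverage (fun z => (g z).re) 0 r ≤ Real.circleAverage (fun z => Real.log ‖F z‖) 0 r + 1 := by
    have hlogWint : CircleIntegrable (fun z => Real.log (W z)) 0 r := hlogWc.continuousOn.circleIntegrable'
    have h1 : Real.circleAverage (fun z => (g z).re) 0 r ≤ Real.circleAverage (fun z => Real.log (W z) + 1) 0 r := by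
      refine Real.circleAverage_mono (Complex.continuous_re.comp hg.continuous).continuousOn.circleIntegrable'
        (hlogWc.add continuous_const).continuousOn.circleIntegrable' fun z hz => ?_
      rw [abs_of_pos hr] at hz
      have := (abs_le.1 (hgW z hz)).2
      show (g z).re ≤ Real.log (W z) + 1
      linarith
    have h2 : Real.circleAverage (fun z => Real.log (W z) + 1) 0 r = Real.circleAverage (fun z => Real.log (W z)) 0 r + 1 := by
      rw [Real.circleAverage_fun_add hlogWint (circleIntegrable_const _ _ _), Real.circleAverage_const]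
    have h3 : Real.circleAverage (fun z => Real.log (W z)) 0 r = Real.circleAverage (fun z => Real.log ‖F z‖) 0 r := by
      have e1 : (fun z => Real.log (W z)) = fun z => (n : ℝ)⁻¹ • ∑ j ∈ Finset.range n, Real.log ‖F (rot n j * z)‖ := by
        funext z
        rw [hlogW, smul_eq_mul]
      rw [e1, Real.circleAverage_fun_smul]
      have e2 : (fun z => ∑ j ∈ Finset.range n, Real.log ‖F (rot n j * z)‖) = fun z => ∑ j ∈ Finset.range n, (fun j z => Real.log ‖F (rot n j * z)‖) j z := rfl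
      have hint : ∀ j ∈ Finset.range n, CircleIntegrable (fun z => Real.log ‖F (rot n j * z)‖) 0 r := fun j _ =>
        ((hcF j).log fun z => norm_ne_zero_iff.2 (h0 _)).continuousOn.circleIntegrable'
      rw [Real.circleAverage_fun_sum hint]
      have e3 : ∀ j ∈ Finset.range n, Real.circleAverage (fun z => Real.log ‖F (rot n j * z)‖) 0 r = Real.circleAverage (fun z => Real.log ‖F z‖) 0 r :=
        fun j _ => circleAverage_rot (fun z => Real.log ‖F z‖) n j hr.le
      rw [Finset.sum_congr rfl e3, Finset.sum_const, Finset.card_range, nsmul_eq_mul, smul_eq_mul]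
      field_simp
    rw [h2, h3] at h1
    exact h1
  rw [hW0] at key2
  linarith

/-- an entire function which is bounded by a power of the Fubini-Study derivative of an entire curve of order two is constant -/
theorem liouville {F : ℂ → EN N} (hF : Differentiable ℂ F) (h0 : ∀ z, F z ≠ 0) {s : ℂ → ℂ} (hs : Differentiable ℂ s) {m : ℕ}
    (hm : 1 ≤ m) {C : ℝ} (hC : ∀ z, ‖s z‖ ≤ C * fs (F z) (deriv F z) ^ m) {A : ℝ}
    (hA : ∀ r : ℝ, 0 < r → Real.circleAverage (fun z => Real.log ‖F z‖) 0 r ≤ A * (1 + r ^ 2)) : ∀ z, s z = s 0 := by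
  by_contra hcon
  push Not at hcon
  have hm0 : (0 : ℝ) < m := by exact_mod_cast hm
  obtain ⟨p, hp⟩ : ∃ p : ℝ, p = 2 / m := ⟨_, rfl⟩
  have hp0 : 0 < p := by rw [hp]; positivity
  obtain ⟨K, hK⟩ : ∃ K : ℝ, K = (max C 1) ^ p := ⟨_, rfl⟩
  have hC1 : 0 < max C 1 := lt_max_of_lt_right one_pos
  have hK0 : 0 < K := by rw [hK]; exact Real.rpow_pos_of_pos hC1 _
  have hle : ∀ z, ‖s z‖ ^ p ≤ K * fs (F z) (deriv F z) ^ 2 := by
    intro z
    have hfs := Pool.Agent.H36.BP.fs_nonneg (F z) (deriv F z)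
    have h1 : ‖s z‖ ≤ max C 1 * fs (F z) (deriv F z) ^ m :=
      (hC z).trans (mul_le_mul_of_nonneg_right (le_max_left _ _) (by positivity))
    have h2 := Real.rpow_le_rpow (norm_nonneg _) h1 hp0.le
    rw [Real.mul_rpow hC1.le (by positivity), ← hK] at h2
    have h3 : (fs (F z) (deriv F z) ^ m) ^ p = fs (F z) (deriv F z) ^ 2 := by
      rw [← Real.rpow_natCast, ← Real.rpow_mul hfs, hp]
      have : (m : ℝ) * (2 / m) = 2 := by field_simp
      rw [this, Real.rpow_two]
    rwa [h3] at h2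
  obtain ⟨b, hb⟩ : ∃ b : ℝ, b = |A| + 1 := ⟨_, rfl⟩
  have hb0 : 0 < b := by rw [hb]; positivity
  obtain ⟨t₁, ht, hgrow⟩ := growth hs hcon hp0 (2 * b * K + 1)
  have hcs : Continuous fun z => ‖s z‖ ^ p := (hs.continuous.norm).rpow_const fun z => Or.inr hp0.le
  have hineq : ∀ r, t₁ < r → bar b t₁ r ≤ A * (1 + r ^ 2) - Real.log ‖F 0‖ + 2 := by
    intro r hr
    obtain ⟨n, hn, hnr⟩ := riemann hcs (ht.trans hr) one_pos
    have hn0 : (0 : ℝ) < n := by exact_mod_cast hn
    have h1 := barrier hF h0 hn hb0 ht hr (by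
      intro z hz1 hz2
      have h2 := (abs_le.1 (hnr z hz2)).1
      have h3 := hgrow ‖z‖ hz1
      have h4 : (n : ℝ)⁻¹ * ∑ j ∈ Finset.range n, ‖s (rot n j * z)‖ ^ p ≤
          (n : ℝ)⁻¹ * ∑ j ∈ Finset.range n, K * fs (F (rot n j * z)) (deriv F (rot n j * z)) ^ 2 :=
        mul_le_mul_of_nonneg_left (Finset.sum_le_sum fun j _ => hle _) (inv_pos.2 hn0).le
      have h5 : (n : ℝ)⁻¹ * ∑ j ∈ Finset.range n, K * fs (F (rot n j * z)) (deriv F (rot n j * z)) ^ 2 =
          2 * K * ((n : ℝ)⁻¹ * ∑ j ∈ Finset.range n, fs (F (rot n j * z)) (deriv F (rot n j * z)) ^ 2 / 2) := by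
        rw [← Finset.mul_sum, ← Finset.sum_div]
        ring
      rw [h5] at h4
      have h6 : 2 * K * b ≤ 2 * K * ((n : ℝ)⁻¹ * ∑ j ∈ Finset.range n, fs (F (rot n j * z)) (deriv F (rot n j * z)) ^ 2 / 2) := by
        linarith
      exact le_of_mul_le_mul_left h6 (by positivity))
    have h2 := hA r (ht.trans hr)
    linarith
  obtain ⟨D, hD⟩ : ∃ D : ℝ, D = b * t₁ ^ 2 + |A| + |Real.log ‖F 0‖| + 2 := ⟨_, rfl⟩
  have hD0 : 0 < D := by
    have h1 := abs_nonneg A
    have h2 := abs_nonneg (Real.log ‖F 0‖)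
    have h3 : 0 < b * t₁ ^ 2 := by positivity
    rw [hD]
    linarith
  obtain ⟨r, hr⟩ : ∃ r : ℝ, r = 2 * b * t₁ + D + 1 + t₁ := ⟨_, rfl⟩
  have hr1 : t₁ < r := by
    have : 0 < 2 * b * t₁ := by positivity
    linarith
  have hr0 : 0 < r := ht.trans hr1
  have h1 := hineq r hr1
  rw [bar] at h1
  have hlog : Real.log (r / t₁) ≤ r / t₁ := (Real.log_le_sub_one_of_pos (by positivity)).trans (by linarith)
  have h2 : 2 * t₁ ^ 2 * Real.log (r / t₁) ≤ 2 * t₁ * r := by
    calc 2 * t₁ ^ 2 * Real.log (r / t₁) ≤ 2 * t₁ ^ 2 * (r / t₁) := mul_le_mul_of_nonneg_left hlog (by positivity)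
      _ = 2 * t₁ * r := by field_simp
  have h3 : b * (r ^ 2 - t₁ ^ 2 - 2 * t₁ * r) ≤ b * (r ^ 2 - t₁ ^ 2 - 2 * t₁ ^ 2 * Real.log (r / t₁)) :=
    mul_le_mul_of_nonneg_left (by linarith) hb0.le
  have h4 : A * (1 + r ^ 2) ≤ |A| * (1 + r ^ 2) := mul_le_mul_of_nonneg_right (le_abs_self A) (by positivity)
  have h5 := neg_abs_le (Real.log ‖F 0‖)
  have h6 : b * r ^ 2 = |A| * r ^ 2 + r ^ 2 := by rw [hb]; ring
  have h7 : r ^ 2 ≤ 2 * b * t₁ * r + D := by
    rw [hD]
    nlinarith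
  have h8 : r ^ 2 = 2 * b * t₁ * r + (D + 1 + t₁) * r := by
    rw [hr]
    ring
  have h9 : D < (D + 1 + t₁) * r := by
    have hr2 : 1 ≤ r := by
      have : 0 < 2 * b * t₁ := by positivity
      linarith
    nlinarith
  linarith

end Pool.Agent.H15.V
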