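import Mathlib

/-!
# V LiouA: averages over finitely many rotations

For a continuous function `φ` the averages over the rotations by multiples of `2π/N` tend to the averages over circles, uniformly on discs.
-/

set_option autoImplicit false

open Topology Filter Metric

namespace Pool.Agent.H15.V

/-- rotation by `2π j / N` -/
noncomputable def rot (N j : ℕ) : ℂ := Complex.exp (((2 * Real.pi * j / N : ℝ) : ℂ) * Complex.I)

theorem norm_rot (N j : ℕ) : ‖rot N j‖ = 1 := Complex.norm_exp_ofReal_mul_I _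

theorem circleAverage_eq_rot (φ : ℂ → ℝ) (z : ℂ) :
    Real.circleAverage φ 0 ‖z‖ = (2 * Real.pi)⁻¹ * ∫ θ in (0 : ℝ)..2 * Real.pi, φ (z * Complex.exp ((θ : ℂ) * Complex.I)) := by
  rw [Real.circleAverage_eq_integral_add (Complex.arg z), smul_eq_mul]
  congr 1
  refine intervalIntegral.integral_congr fun θ _ => ?_
  show φ (circleMap 0 ‖z‖ (θ + Complex.arg z)) = φ (z * Complex.exp ((θ : ℂ) * Complex.I))
  congr 1
  rw [circleMap_zero]
  push_cast
  rw [add_mul, Complex.exp_add]
  have h := Complex.norm_mul_exp_arg_mul_I z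
  calc (‖z‖ : ℂ) * (Complex.exp (↑θ * Complex.I) * Complex.exp (↑(Complex.arg z) * Complex.I))
      = ((‖z‖ : ℂ) * Complex.exp (↑(Complex.arg z) * Complex.I)) * Complex.exp (↑θ * Complex.I) := by ring
    _ = z * Complex.exp (↑θ * Complex.I) := by rw [h]

theorem exp_sub_le (a b : ℝ) : ‖Complex.exp ((a : ℂ) * Complex.I) - Complex.exp ((b : ℂ) * Complex.I)‖ ≤ |a - b| := by
  have h1 : Complex.exp ((a : ℂ) * Complex.I) - Complex.exp ((b : ℂ) * Complex.I) =
      Complex.exp ((b : ℂ) * Complex.I) * (Complex.exp (Complex.I * ((a - b : ℝ) : ℂ)) - 1) := by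
    rw [mul_sub, ← Complex.exp_add, mul_one]
    congr 2
    push_cast
    ring
  rw [h1, norm_mul, Complex.norm_exp_ofReal_mul_I, one_mul]
  exact (Real.norm_exp_I_mul_ofReal_sub_one_le).trans (by rw [Real.norm_eq_abs])

theorem riemann {φ : ℂ → ℝ} (hφ : Continuous φ) {r δ : ℝ} (hr : 0 < r) (hδ : 0 < δ) :
    ∃ N : ℕ, 1 ≤ N ∧ ∀ z : ℂ, ‖z‖ ≤ r →
      |(N : ℝ)⁻¹ * ∑ j ∈ Finset.range N, φ (rot N j * z) - Real.circleAverage φ 0 ‖z‖| ≤ δ := by
  have huc : UniformContinuousOn φ (closedBall 0 r) := (isCompact_closedBall 0 r).uniformContinuousOn_of_continuous hφ.continuousOn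
  rw [Metric.uniformContinuousOn_iff_le] at huc
  obtain ⟨η, hη, hη2⟩ := huc δ hδ
  obtain ⟨N, hN⟩ := exists_nat_gt (r * (2 * Real.pi) / η)
  have hN0 : (0 : ℝ) < N := lt_trans (by positivity) hN
  have hN1 : 1 ≤ N := by
    rcases Nat.eq_zero_or_pos N with h | h
    · rw [h] at hN0; simp at hN0
    · exact h
  refine ⟨N, hN1, fun z hz => ?_⟩
  rw [circleAverage_eq_rot]
  obtain ⟨a, ha⟩ : ∃ a : ℕ → ℝ, ∀ j, a j = 2 * Real.pi * j / N := ⟨_, fun _ => rfl⟩
  have ha0 : a 0 = 0 := by rw [ha]; simp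
  have haN : a N = 2 * Real.pi := by rw [ha]; field_simp
  have hstep : ∀ j, a (j + 1) - a j = 2 * Real.pi / N := by
    intro j
    rw [ha, ha]
    push_cast
    ring
  have hc : Continuous fun θ : ℝ => φ (z * Complex.exp ((θ : ℂ) * Complex.I)) := by fun_prop
  have hsum : ∫ θ in (0 : ℝ)..2 * Real.pi, φ (z * Complex.exp ((θ : ℂ) * Complex.I)) =
      ∑ j ∈ Finset.range N, ∫ θ in (a j)..(a (j + 1)), φ (z * Complex.exp ((θ : ℂ) * Complex.I)) := by
    rw [intervalIntegral.sum_integral_adjacent_intervals fun j _ => hc.intervalIntegrable _ _, ha0, haN]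
  have hpiece : ∀ j ∈ Finset.range N, |(2 * Real.pi / N) * φ (rot N j * z) -
      ∫ θ in (a j)..(a (j + 1)), φ (z * Complex.exp ((θ : ℂ) * Complex.I))| ≤ δ * (2 * Real.pi / N) := by
    intro j hj
    have h1 : (2 * Real.pi / N) * φ (rot N j * z) = ∫ _ in (a j)..(a (j + 1)), φ (rot N j * z) := by
      rw [intervalIntegral.integral_const, hstep, smul_eq_mul]
    rw [h1, ← intervalIntegral.integral_sub intervalIntegrable_const (hc.intervalIntegrable _ _)]
    have hle : a j ≤ a (j + 1) := by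
      have := hstep j
      have h2 : 0 < 2 * Real.pi / N := by positivity
      linarith
    have h2 := intervalIntegral.norm_integral_le_of_norm_le_const (a := a j) (b := a (j + 1))
      (f := fun θ : ℝ => φ (rot N j * z) - φ (z * Complex.exp ((θ : ℂ) * Complex.I))) (C := δ) ?_
    · rw [hstep, abs_of_pos (by positivity)] at h2
      rwa [Real.norm_eq_abs] at h2
    · intro θ hθ
      rw [Set.uIoc_of_le hle] at hθ
      rw [Real.norm_eq_abs, ← Real.dist_eq]
      have hn : ∀ t : ℝ, ‖z * Complex.exp ((t : ℂ) * Complex.I)‖ ≤ r := fun t => by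
        rw [norm_mul, Complex.norm_exp_ofReal_mul_I, mul_one]
        exact hz
      refine hη2 _ ?_ _ ?_ ?_
      · rw [mem_closedBall_zero_iff, norm_mul, norm_rot, one_mul]
        exact hz
      · rw [mem_closedBall_zero_iff]
        exact hn θ
      · have hrot : rot N j = Complex.exp ((a j : ℂ) * Complex.I) := by rw [ha, rot]
        rw [hrot, dist_eq_norm, mul_comm (Complex.exp _) z, ← mul_sub, norm_mul]
        have h3 := exp_sub_le (a j) θ
        have h4 : |a j - θ| ≤ 2 * Real.pi / N := by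
          have := hstep j
          rw [abs_le]
          constructor <;> linarith [hθ.1, hθ.2]
        calc ‖z‖ * ‖Complex.exp ((a j : ℂ) * Complex.I) - Complex.exp ((θ : ℂ) * Complex.I)‖
            ≤ r * (2 * Real.pi / N) := mul_le_mul hz (h3.trans h4) (norm_nonneg _) hr.le
          _ ≤ η := by
            rw [div_lt_iff₀ hη] at hN
            rw [← mul_div_assoc, div_le_iff₀ hN0]
            linarith
  have hpos : (0 : ℝ) < 2 * Real.pi := by positivity
  have htot : |(2 * Real.pi / N) * ∑ j ∈ Finset.range N, φ (rot N j * z) -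
      ∫ θ in (0 : ℝ)..2 * Real.pi, φ (z * Complex.exp ((θ : ℂ) * Complex.I))| ≤ δ * (2 * Real.pi) := by
    rw [hsum, Finset.mul_sum, ← Finset.sum_sub_distrib]
    refine (Finset.abs_sum_le_sum_abs _ _).trans ((Finset.sum_le_sum hpiece).trans ?_)
    rw [Finset.sum_const, Finset.card_range, nsmul_eq_mul]
    apply le_of_eq
    field_simp
  have hfin : (N : ℝ)⁻¹ * ∑ j ∈ Finset.range N, φ (rot N j * z) -
      (2 * Real.pi)⁻¹ * ∫ θ in (0 : ℝ)..2 * Real.pi, φ (z * Complex.exp ((θ : ℂ) * Complex.I)) =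
      (2 * Real.pi)⁻¹ * ((2 * Real.pi / N) * ∑ j ∈ Finset.range N, φ (rot N j * z) -
        ∫ θ in (0 : ℝ)..2 * Real.pi, φ (z * Complex.exp ((θ : ℂ) * Complex.I))) := by
    rw [mul_sub, ← mul_assoc]
    congr 2
    field_simp
  rw [hfin, abs_mul, abs_of_pos (inv_pos.2 hpos)]
  calc (2 * Real.pi)⁻¹ * _ ≤ (2 * Real.pi)⁻¹ * (δ * (2 * Real.pi)) := mul_le_mul_of_nonneg_left htot (inv_pos.2 hpos).le
    _ = δ := by field_simp

/-- the average over a circle does not change under rotations -/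
theorem circleAverage_rot (φ : ℂ → ℝ) (N j : ℕ) {r : ℝ} (hr : 0 ≤ r) :
    Real.circleAverage (fun z => φ (rot N j * z)) 0 r = Real.circleAverage φ 0 r := by
  have h1 := circleAverage_eq_rot φ (rot N j * r)
  have h2 := circleAverage_eq_rot (fun z => φ (rot N j * z)) (r : ℂ)
  rw [Complex.norm_real, Real.norm_eq_abs, abs_of_nonneg hr] at h2
  rw [norm_mul, norm_rot, one_mul, Complex.norm_real, Real.norm_eq_abs, abs_of_nonneg hr] at h1
  rw [h1, h2]
  congr 1
  refine intervalIntegral.integral_congr fun θ _ => ?_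
  show φ (rot N j * (r * _)) = φ (rot N j * r * _)
  rw [mul_assoc]

end Pool.Agent.H15.V
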